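import Pool.Agent.H66.GlueCat

set_option autoImplicit false

namespace Pool.Agent.Results.MP_afeaf0_al.SolidNotCatenary

open Pool.Agent.H66.CatDefs

theorem result (p : ℕ) (hp : p.Prime) :
    ∃ (R : Type) (_ : CommRing R) (_ : IsDomain R), IsNoetherianRing R ∧ CharP R p ∧
      IsSolid R (absIntClosure R) ∧ ¬ IsUniversallyCatenary R := by
  have := Fact.mk hp
  obtain ⟨R, _, _, h1, h2, h3, h4⟩ := Pool.Agent.H66.GlueCat.main p
  exact ⟨R, inferInstance, inferInstance, h1, h2, h3, fun h => h4 (h _ inferInstance)⟩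

end Pool.Agent.Results.MP_afeaf0_al.SolidNotCatenary
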